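import Mathlib

open Finset Filter Topology

namespace Pool.Agent.H.MP_25bd62_pr

section gen
variable {E F ι : Type} [DecidableEq E] [Fintype E] [Fintype F] [LinearOrder F] [DecidableEq ι]

/-- disjoint sets have independent last elements -/
lemma last_le (e : ι → E) (D : ι → Finset E) (s : Finset ι) (he : ∀ i ∈ s, e i ∈ D i)
    (hD : ∀ i ∈ s, ∀ j ∈ s, i ≠ j → Disjoint (D i) (D j)) :
    #{σ : F ≃ E | ∀ i ∈ s, ∀ f ∈ D i, σ.symm f ≤ σ.symm (e i)} * ∏ i ∈ s, #(D i) ≤ Fintype.card (F ≃ E) := by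
  induction s using Finset.induction_on with
  | empty => simp
  | insert i s hi ih =>
    refine le_trans ?_ (ih (fun j hj => he j (mem_insert_of_mem hj))
      fun j hj k hk => hD j (mem_insert_of_mem hj) k (mem_insert_of_mem hk))
    rw [prod_insert hi, ← mul_assoc]
    refine Nat.mul_le_mul_right _ ?_
    rw [← card_product]
    have hei := he i (mem_insert_self _ _)
    have hsw : ∀ a ∈ D i, ∀ f ∈ D i, Equiv.swap a (e i) f ∈ D i := by
      intro a ha f hf
      rw [Equiv.swap_apply_def]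
      split_ifs <;> assumption
    refine card_le_card_of_injOn (fun p => p.1.trans (Equiv.swap p.2 (e i))) ?_ ?_
    · rintro ⟨σ, a⟩ hp
      simp only [coe_product, coe_filter, mem_univ, true_and, Set.mem_prod, Set.mem_ofPred_eq, mem_coe] at hp ⊢
      intro j hj f hf
      have hd := hD j (mem_insert_of_mem hj) i (mem_insert_self _ _) (fun h => hi (h ▸ hj))
      have h1 : ∀ g ∈ D j, Equiv.swap a (e i) g = g := fun g hg =>
        Equiv.swap_apply_of_ne_of_ne (fun h => disjoint_left.1 hd hg (h ▸ hp.2))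
          (fun h => disjoint_left.1 hd hg (h ▸ hei))
      simp only [Equiv.symm_trans_apply, Equiv.symm_swap]
      rw [h1 f hf, h1 _ (he j (mem_insert_of_mem hj))]
      exact hp.1 j (mem_insert_of_mem hj) f hf
    · rintro ⟨σ, a⟩ hp ⟨τ, b⟩ hq h
      simp only [coe_product, coe_filter, mem_univ, true_and, Set.mem_prod, Set.mem_ofPred_eq, mem_coe] at hp hq
      have h1 : ∀ f, σ.symm (Equiv.swap a (e i) f) = τ.symm (Equiv.swap b (e i) f) := fun f => by
        have := congrArg (fun ρ : F ≃ E => ρ.symm f) h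
        simpa using this
      have h2 := hp.1 i (mem_insert_self _ _) _ (hsw a hp.2 b hq.2)
      have h3 := hq.1 i (mem_insert_self _ _) _ (hsw b hq.2 a hp.2)
      have h4 := h1 a
      have h5 := h1 b
      rw [Equiv.swap_apply_left] at h4 h5
      have h6 : σ.symm (Equiv.swap a (e i) b) = σ.symm (Equiv.swap a (e i) a) := by
        rw [Equiv.swap_apply_left]
        exact le_antisymm h2 (by rw [h4, h5]; exact h3)
      have h7 : b = a := (Equiv.swap a (e i)).injective (σ.symm.injective h6)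
      subst h7
      have h8 : σ = τ := by
        ext x
        have := congrArg (fun ρ : F ≃ E => ρ x) h
        simpa using this
      rw [h8]

lemma last_le' (e : ι → E) (D : ι → Finset E) (s : Finset ι) (he : ∀ i ∈ s, e i ∈ D i)
    (hD : ∀ i ∈ s, ∀ j ∈ s, i ≠ j → Disjoint (D i) (D j)) (A : Finset (F ≃ E))
    (hA : ∀ σ ∈ A, ∀ i ∈ s, ∀ f ∈ D i, σ.symm f ≤ σ.symm (e i)) :
    (#A : ℝ) * ∏ i ∈ s, (#(D i) : ℝ) ≤ Fintype.card (F ≃ E) := by
  have h := (Nat.mul_le_mul_right _ (card_le_card fun σ hσ => mem_filter.2 ⟨mem_univ _, hA σ hσ⟩)).trans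
    (last_le (F := F) e D s he hD)
  exact_mod_cast h

end gen

abbrev Ed (n : ℕ) : Type := {e : Fin n × Fin n // e.1 < e.2}

def ini {n : ℕ} (G : Finset (Ed n)) : ℕ := #{v : Fin n | ∀ e ∈ G, e.1.2 ≠ v}

def ter {n : ℕ} (G : Finset (Ed n)) : ℕ := #{v : Fin n | ∀ e ∈ G, e.1.1 ≠ v}

def step {n : ℕ} (G : Finset (Ed n)) (e : Ed n) : Finset (Ed n) :=
  if ini (G.erase e) ≤ 1 ∧ ter (G.erase e) ≤ 1 then G.erase e else G

noncomputable def len {n : ℕ} (G : Finset (Ed n)) : ℕ :=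
  sSup {l | ∃ v : ℕ → Fin n, ∀ i < l, ∃ e ∈ G, e.1 = (v i, v (i + 1))}

noncomputable def EL (n : ℕ) : ℝ :=
  (∑ σ : Fin (Fintype.card (Ed n)) ≃ Ed n, (len ((List.ofFn σ).foldl step univ) : ℝ)) /
    Fintype.card (Fin (Fintype.card (Ed n)) ≃ Ed n)

variable {n : ℕ}

lemma inv_fold (l : List (Ed n)) : ∀ G, ini G ≤ 1 ∧ ter G ≤ 1 → ini (l.foldl step G) ≤ 1 ∧ ter (l.foldl step G) ≤ 1 := by
  induction l with
  | nil => exact fun G h => h
  | cons a l ih =>
    intro G h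
    refine ih _ ?_
    unfold step
    split_ifs with h2
    exacts [h2, h]

lemma sub_fold (l : List (Ed n)) : ∀ G, l.foldl step G ⊆ G := by
  induction l with
  | nil => exact fun G => subset_rfl
  | cons a l ih =>
    intro G
    refine (ih _).trans ?_
    unfold step
    split_ifs
    exacts [erase_subset _ _, subset_rfl]

lemma mem_fold (l : List (Ed n)) (x : Ed n) (hx : x ∉ l) : ∀ G, x ∈ G → x ∈ l.foldl step G := by
  induction l with
  | nil => exact fun G h => h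
  | cons a l ih =>
    intro G h
    rw [List.mem_cons, not_or] at hx
    refine ih hx.2 _ ?_
    unfold step
    split_ifs
    exacts [mem_erase.2 ⟨hx.1, h⟩, h]

lemma inv_univ : ini (univ : Finset (Ed n)) ≤ 1 ∧ ter (univ : Finset (Ed n)) ≤ 1 := by
  constructor <;> refine card_le_one.2 fun a ha b hb => ?_ <;>
    simp only [mem_filter, mem_univ, true_and, true_implies] at ha hb <;> rcases lt_trichotomy a b with h | h | h
  · exact absurd rfl (hb ⟨(a, b), h⟩)
  · exact h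
  · exact absurd rfl (ha ⟨(b, a), h⟩)
  · exact absurd rfl (ha ⟨(a, b), h⟩)
  · exact h
  · exact absurd rfl (hb ⟨(b, a), h⟩)

lemma cnt_le (g : Ed n → Fin n) (G : Finset (Ed n)) (e f : Ed n) (hf : f ∈ G) (h : f ≠ e) (hg : g f = g e) :
    #{v : Fin n | ∀ x ∈ G.erase e, g x ≠ v} ≤ #{v : Fin n | ∀ x ∈ G, g x ≠ v} :=
  card_le_card fun v hv => by
    simp only [mem_filter, mem_univ, true_and] at hv ⊢
    intro x hx h2
    by_cases h3 : x = e
    · subst h3
      exact hv f (mem_erase.2 ⟨h, hf⟩) (hg.trans h2)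
    · exact hv x (mem_erase.2 ⟨h3, hx⟩) h2

lemma kept {N : ℕ} (σ : Fin N ≃ Ed n) (e : Ed n) (he : e ∈ (List.ofFn σ).foldl step univ) :
    (∀ f : Ed n, f.1.1 = e.1.1 → σ.symm f ≤ σ.symm e) ∨ ∀ f : Ed n, f.1.2 = e.1.2 → σ.symm f ≤ σ.symm e := by
  by_contra hc
  push Not at hc
  obtain ⟨⟨f, hf, hf'⟩, g, hg, hg'⟩ := hc
  set i := σ.symm e with hi
  have hl : i.val < (List.ofFn σ).length := by simp
  have h1 : List.ofFn σ = (List.ofFn σ).take i ++ e :: (List.ofFn σ).drop (i + 1) := by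
    conv_lhs => rw [← List.take_append_drop i (List.ofFn σ), List.drop_eq_getElem_cons hl]
    simp [hi]
  have h2 : ∀ x : Ed n, i < σ.symm x → x ∈ ((List.ofFn σ).take i).foldl step univ := by
    intro x hx
    refine mem_fold _ x (fun h => ?_) _ (mem_univ _)
    obtain ⟨j, hj, h3⟩ := List.mem_iff_getElem.1 h
    simp only [List.getElem_take, List.getElem_ofFn] at h3
    simp only [List.length_take, List.length_ofFn] at hj
    rw [← h3, Equiv.symm_apply_apply, Fin.lt_def] at hx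
    simp only at hx
    omega
  have h3 : ∀ x : Ed n, i < σ.symm x → x ≠ e := fun x hx h => by rw [h] at hx; exact lt_irrefl _ hx
  rw [h1, List.foldl_append, List.foldl_cons] at he
  have h4 := inv_fold ((List.ofFn σ).take i) univ inv_univ
  have h5 := sub_fold _ _ he
  unfold step at h5
  rw [if_pos ⟨(cnt_le (fun x => x.1.2) _ e g (h2 g hg') (h3 g hg') hg).trans h4.1,
    (cnt_le (fun x => x.1.1) _ e f (h2 f hf') (h3 f hf') hf).trans h4.2⟩] at h5
  exact notMem_erase _ _ h5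

noncomputable def w (n : ℕ) (v : Fin n) : ℝ := 2 / ((n - v : ℕ) : ℝ) + 3 / (v : ℝ)

def Do (e : Ed n) : Finset (Ed n) := {f | f.1.1 = e.1.1 ∧ (f = e ∨ (f.1.1.val + f.1.2.val) % 2 = 1)}

def Di (e : Ed n) : Finset (Ed n) := {f | f.1.2 = e.1.2 ∧ (f = e ∨ (f.1.1.val + f.1.2.val) % 2 = 0)}

lemma card_Do (e : Ed n) : 1 / (#(Do e) : ℝ) ≤ 2 / ((n - e.1.2 : ℕ) : ℝ) := by
  obtain ⟨⟨a, b⟩, hab⟩ := e
  have h0 : a.val < b.val := hab
  have hb := b.isLt
  have h1 : (n - a.val) / 2 ≤ #(Do ⟨(a, b), hab⟩) := by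
    rw [← Fintype.card_fin ((n - a.val) / 2), ← card_univ]
    refine card_le_card_of_injOn (fun j => ⟨(a, ⟨a + 2 * j + 1, by have := j.isLt; omega⟩), by
      simp only [Fin.lt_def]; omega⟩) (fun j _ => ?_) (fun j _ k _ h => ?_)
    · simp only [Do, coe_filter, mem_univ, true_and, Set.mem_ofPred_eq]
      right
      omega
    · simp only [Subtype.mk.injEq, Prod.mk.injEq, Fin.mk.injEq, true_and] at h
      exact Fin.ext (by omega)
  have h2 : n - b.val ≤ 2 * #(Do ⟨(a, b), hab⟩) := by omega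
  have h3 : (0 : ℝ) < (n - b.val : ℕ) := by exact_mod_cast (by omega : 0 < n - b.val)
  have h4 : (0 : ℝ) < #(Do ⟨(a, b), hab⟩) := by exact_mod_cast (by omega : 0 < #(Do ⟨(a, b), hab⟩))
  rw [div_le_div_iff₀ h4 h3, one_mul]
  exact_mod_cast h2

lemma card_Di (e : Ed n) : 1 / (#(Di e) : ℝ) ≤ 3 / (e.1.2 : ℝ) := by
  have h5 : 0 < #(Di e) := card_pos.2 ⟨e, by simp [Di]⟩
  obtain ⟨⟨a, b⟩, hab⟩ := e
  have h0 : a.val < b.val := hab
  have hb := b.isLt
  have h1 : b.val / 2 ≤ #(Di ⟨(a, b), hab⟩) := by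
    rw [← Fintype.card_fin (b.val / 2), ← card_univ]
    refine card_le_card_of_injOn (fun j => ⟨(⟨b - 2 * j - 2, by omega⟩, b), by
      simp [Fin.lt_def]; omega⟩) (fun j _ => ?_) (fun j _ k _ h => ?_)
    · simp only [Di, coe_filter, mem_univ, true_and, Set.mem_ofPred_eq]
      right
      have := j.isLt
      omega
    · simp only [Subtype.mk.injEq, Prod.mk.injEq, Fin.mk.injEq, and_true] at h
      have := j.isLt
      have := k.isLt
      exact Fin.ext (by omega)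
  have h2 : b.val ≤ 3 * #(Di ⟨(a, b), hab⟩) := by omega
  have h3 : (0 : ℝ) < (b.val : ℕ) := by exact_mod_cast (by omega : 0 < b.val)
  have h4 : (0 : ℝ) < #(Di ⟨(a, b), hab⟩) := by exact_mod_cast h5
  rw [div_le_div_iff₀ h4 h3, one_mul]
  exact_mod_cast h2

lemma prob {N : ℕ} (C : Finset (Ed n)) (h1 : ∀ e ∈ C, ∀ f ∈ C, e.1.1 = f.1.1 → e = f)
    (h2 : ∀ e ∈ C, ∀ f ∈ C, e.1.2 = f.1.2 → e = f) :
    (#{σ : Fin N ≃ Ed n | C ⊆ (List.ofFn σ).foldl step univ} : ℝ) ≤
      Fintype.card (Fin N ≃ Ed n) * ∏ e ∈ C, w n e.1.2 := by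
  let D : Finset (Ed n) → Ed n → Finset (Ed n) := fun T e => if e ∈ T then Do e else Di e
  have hmem : ∀ T e, e ∈ D T e := fun T e => by
    simp only [D]
    split_ifs <;> simp [Do, Di]
  obtain ⟨A, hA⟩ : ∃ A : Finset (Ed n) → Finset (Fin N ≃ Ed n),
      ∀ T σ, σ ∈ A T ↔ ∀ e ∈ C, ∀ f ∈ D T e, σ.symm f ≤ σ.symm e :=
    ⟨fun T => {σ | ∀ e ∈ C, ∀ f ∈ D T e, σ.symm f ≤ σ.symm e}, fun T σ => by
      simp only [mem_filter, mem_univ, true_and]⟩
  have h3 : ({σ : Fin N ≃ Ed n | C ⊆ (List.ofFn σ).foldl step univ} : Finset _) ⊆ C.powerset.biUnion A := by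
    intro σ hσ
    simp only [mem_filter, mem_univ, true_and, mem_biUnion, mem_powerset, hA] at hσ ⊢
    refine ⟨{e ∈ C | ∀ f : Ed n, f.1.1 = e.1.1 → σ.symm f ≤ σ.symm e}, filter_subset _ _, fun e he f hf => ?_⟩
    simp only [D, mem_filter] at hf
    split_ifs at hf with h
    · exact h.2 f (mem_filter.1 hf).2.1
    · exact ((kept σ e (hσ he)).resolve_left fun h' => h ⟨he, h'⟩) f (mem_filter.1 hf).2.1
  have h4 : ∀ T ∈ C.powerset,
      (#(A T) : ℝ) ≤
      Fintype.card (Fin N ≃ Ed n) * ((∏ e ∈ T, 2 / ((n - e.1.2 : ℕ) : ℝ)) * ∏ e ∈ C \ T, 3 / (e.1.2 : ℝ)) := by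
    intro T hT
    have h7 := last_le' (F := Fin N) id (D T) C (fun e _ => hmem T e) (by
      intro e he f hf hef
      rw [disjoint_left]
      intro x hx hy
      simp only [D] at hx hy
      split_ifs at hx hy <;> simp only [Do, Di, mem_filter, mem_univ, true_and] at hx hy
      · exact hef (h1 e he f hf (hx.1.symm.trans hy.1))
      · rcases hx.2 with h | h
        · subst h; exact hef (h2 _ he f hf hy.1)
        · rcases hy.2 with h' | h'
          · subst h'; exact hef (h1 e he _ hf hx.1.symm)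
          · omega
      · rcases hx.2 with h | h
        · subst h; exact hef (h1 _ he f hf hy.1)
        · rcases hy.2 with h' | h'
          · subst h'; exact hef (h2 e he _ hf hx.1.symm)
          · omega
      · exact hef (h2 e he f hf (hx.1.symm.trans hy.1))) (A T) (fun σ hσ => (hA T σ).1 hσ)
    have h6 : (0 : ℝ) < ∏ e ∈ C, (#(D T e) : ℝ) :=
      prod_pos fun e _ => by exact_mod_cast card_pos.2 ⟨e, hmem T e⟩
    rw [← le_div_iff₀ h6, div_eq_mul_one_div] at h7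
    refine h7.trans (mul_le_mul_of_nonneg_left ?_ (by positivity))
    rw [one_div, ← prod_inv_distrib, ← prod_sdiff (mem_powerset.1 hT), mul_comm]
    refine mul_le_mul (prod_le_prod (fun _ _ => by positivity) fun e he => ?_)
      (prod_le_prod (fun _ _ => by positivity) fun e he => ?_) (prod_nonneg fun _ _ => by positivity)
      (prod_nonneg fun _ _ => by positivity)
    · simp only [D, if_pos he]
      rw [← one_div]
      exact card_Do e
    · simp only [D, if_neg (mem_sdiff.1 he).2]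
      rw [← one_div]
      exact card_Di e
  have h8 := (card_le_card h3).trans card_biUnion_le
  have h9 := sum_le_sum h4
  unfold w
  rw [prod_add, mul_sum]
  refine le_trans ?_ h9
  exact_mod_cast h8

def CC (u : Fin n) (T : Finset (Fin n)) : Finset (Ed n) :=
  {e | e.1.2 ∈ T ∧ e.1.1 ∈ insert u T ∧ ∀ x ∈ insert u T, x < e.1.2 → x ≤ e.1.1}

lemma w_nonneg (v : Fin n) : 0 ≤ w n v := by unfold w; positivity

lemma sum_w : ∑ v, w n v ≤ 5 * (1 + Real.log n) := by
  have h1 : ((harmonic n : ℚ) : ℝ) ≤ 1 + Real.log n := harmonic_le_one_add_log n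
  have h2 : ((harmonic n : ℚ) : ℝ) = ∑ i ∈ range n, ((i : ℝ) + 1)⁻¹ := by simp [harmonic]
  have h3 : ∑ v : Fin n, 2 / ((n - v : ℕ) : ℝ) = 2 * ∑ i ∈ range n, ((i : ℝ) + 1)⁻¹ := by
    rw [Fin.sum_univ_eq_sum_range (fun v => 2 / ((n - v : ℕ) : ℝ)), ← sum_range_reflect, mul_sum]
    refine sum_congr rfl fun i hi => ?_
    rw [mem_range] at hi
    rw [show n - (n - 1 - i) = i + 1 by omega]
    push_cast
    rfl
  have h4 : ∑ v : Fin n, 3 / (v : ℝ) ≤ 3 * ∑ i ∈ range n, ((i : ℝ) + 1)⁻¹ := by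
    rw [Fin.sum_univ_eq_sum_range (fun v => 3 / (v : ℝ)), mul_sum]
    refine le_trans (b := ∑ i ∈ range (n + 1), 3 / (i : ℝ)) ?_ ?_
    · rw [sum_range_succ]
      have : (0 : ℝ) ≤ 3 / n := by positivity
      linarith
    · rw [sum_range_succ']
      simp [div_eq_mul_inv]
  unfold w
  rw [sum_add_distrib]
  linarith

lemma prob2 {N : ℕ} (u : Fin n) (T : Finset (Fin n)) (hT : ∀ x ∈ T, u < x) :
    (#{σ : Fin N ≃ Ed n | CC u T ⊆ (List.ofFn σ).foldl step univ} : ℝ) ≤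
      Fintype.card (Fin N ≃ Ed n) * ∏ v ∈ T, w n v := by
  have h2 : ∀ e ∈ CC u T, ∀ f ∈ CC u T, e.1.2 = f.1.2 → e = f := by
    intro e he f hf h
    simp only [CC, mem_filter, mem_univ, true_and] at he hf
    exact Subtype.ext (Prod.ext (le_antisymm (hf.2.2 _ he.2.1 (h ▸ e.2)) (he.2.2 _ hf.2.1 (h ▸ f.2))) h)
  refine (prob (CC u T) ?_ h2).trans (le_of_eq (congrArg _ ?_))
  · intro e he f hf h
    simp only [CC, mem_filter, mem_univ, true_and] at he hf
    refine Subtype.ext (Prod.ext h ?_)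
    rcases lt_trichotomy e.1.2 f.1.2 with h3 | h3 | h3
    · exact absurd (h ▸ hf.2.2 _ (mem_insert_of_mem he.1) h3) (not_le.2 e.2)
    · exact h3
    · exact absurd (h ▸ he.2.2 _ (mem_insert_of_mem hf.1) h3) (not_le.2 f.2)
  · refine prod_nbij (fun e => e.1.2) (fun e he => (mem_filter.1 he).2.1) (fun e he f hf => h2 e he f hf)
      (fun v hv => ?_) (fun _ _ => rfl)
    obtain ⟨a, ha, hb⟩ := exists_max_image {x ∈ insert u T | x < v} id
      ⟨u, mem_filter.2 ⟨mem_insert_self _ _, hT v hv⟩⟩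
    rw [mem_filter] at ha
    refine ⟨⟨(a, v), ha.2⟩, ?_, rfl⟩
    simp only [CC, coe_filter, mem_univ, true_and, Set.mem_ofPred_eq]
    exact ⟨hv, ha.1, fun x hx h => hb x (mem_filter.2 ⟨hx, h⟩)⟩

lemma gf {N : ℕ} (u : Fin n) (z : ℝ) (hz : 0 ≤ z) :
    ∑ σ : Fin N ≃ Ed n, ∑ T : Finset (Fin n) with (∀ x ∈ T, u < x) ∧ CC u T ⊆ (List.ofFn σ).foldl step univ,
      z ^ #T ≤ Fintype.card (Fin N ≃ Ed n) * Real.exp (5 * z * (1 + Real.log n)) := by
  have h1 : ∏ v : Fin n, (1 + z * w n v) ≤ Real.exp (5 * z * (1 + Real.log n)) := by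
    refine (prod_le_prod (fun v _ => by have := w_nonneg v; positivity)
      fun v _ => (add_comm _ _).trans_le (Real.add_one_le_exp _)).trans ?_
    rw [← Real.exp_sum, ← mul_sum]
    refine Real.exp_le_exp.2 ?_
    have := mul_le_mul_of_nonneg_left (sum_w (n := n)) hz
    linarith
  refine le_trans ?_ (mul_le_mul_of_nonneg_left h1 (by positivity))
  rw [prod_one_add, mul_sum, powerset_univ]
  simp only [sum_filter]
  rw [sum_comm]
  refine sum_le_sum fun T _ => ?_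
  rw [prod_mul_distrib, prod_const, mul_left_comm]
  by_cases hT : ∀ x ∈ T, u < x
  · rw [← sum_filter, sum_const, nsmul_eq_mul, mul_comm]
    refine mul_le_mul_of_nonneg_left (le_trans ?_ (prob2 u T hT)) (by positivity)
    refine Nat.cast_le.2 (card_le_card fun σ hσ => ?_)
    exact mem_filter.2 ⟨mem_univ _, (mem_filter.1 hσ).2.2⟩
  · simp only [hT, false_and, if_false, sum_const_zero]
    have := prod_nonneg fun v (_ : v ∈ T) => w_nonneg v
    positivity

lemma path_mono (G : Finset (Ed n)) (l : ℕ) (v : ℕ → Fin n) (h : ∀ i < l, ∃ e ∈ G, e.1 = (v i, v (i + 1))) :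
    StrictMonoOn v (Set.Iic l) := by
  refine strictMonoOn_Iic_of_lt_succ fun i hi => ?_
  obtain ⟨e, -, he⟩ := h i hi
  have := e.2
  rw [he] at this
  exact this

lemma path_CC (G : Finset (Ed n)) (l : ℕ) (v : ℕ → Fin n) (h : ∀ i < l, ∃ e ∈ G, e.1 = (v i, v (i + 1))) :
    ∃ T : Finset (Fin n), #T = l ∧ ((∀ x ∈ T, v 0 < x) ∧ CC (v 0) T ⊆ G) ∧ v l ∈ insert (v 0) T ∧
      ∀ x ∈ insert (v 0) T, x ≤ v l := by
  have hm := path_mono G l v h
  have hi : ∀ x, x ∈ insert (v 0) ((range l).image fun i => v (i + 1)) ↔ ∃ j ≤ l, v j = x := by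
    intro x
    simp only [mem_insert, mem_image, mem_range]
    constructor
    · rintro (h | ⟨i, hi, h⟩)
      exacts [⟨0, by omega, h.symm⟩, ⟨i + 1, hi, h⟩]
    · rintro ⟨j, hj, h⟩
      rcases j with _ | j
      exacts [Or.inl h.symm, Or.inr ⟨j, hj, h⟩]
  refine ⟨(range l).image fun i => v (i + 1), ?_, ⟨?_, ?_⟩, (hi _).2 ⟨l, le_rfl, rfl⟩, ?_⟩
  · rw [card_image_of_injOn, card_range]
    intro i hi j hj hij
    simp only [coe_range, Set.mem_Iio] at hi hj
    have := hm.injOn (show i + 1 ∈ Set.Iic l from hi) (show j + 1 ∈ Set.Iic l from hj) hij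
    omega
  · intro x hx
    obtain ⟨i, hi, rfl⟩ := mem_image.1 hx
    exact hm (show 0 ∈ Set.Iic l from Nat.zero_le l) (show i + 1 ∈ Set.Iic l from mem_range.1 hi) (by omega)
  · intro e he
    simp only [CC, mem_filter, mem_univ, true_and, hi] at he
    obtain ⟨h1, ⟨j, hj, h2⟩, h3⟩ := he
    obtain ⟨i, hi, h4⟩ := mem_image.1 h1
    rw [mem_range] at hi
    have hi1 : i ∈ Set.Iic l := hi.le
    have hi2 : i + 1 ∈ Set.Iic l := hi
    have h5 := h3 (v i) ⟨i, hi.le, rfl⟩ (h4 ▸ hm hi1 hi2 (by omega))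
    have h6 := e.2
    rw [← h2, ← h4, hm.lt_iff_lt hj hi2] at h6
    rw [← h2, hm.le_iff_le hi1 hj] at h5
    obtain rfl : i = j := by omega
    obtain ⟨f, hf, h7⟩ := h i hi
    rwa [show e = f from Subtype.ext (h7 ▸ Prod.ext h2.symm h4.symm)]
  · intro x hx
    obtain ⟨j, hj, rfl⟩ := (hi x).1 hx
    exact hm.monotoneOn hj (Set.mem_Iic.2 le_rfl) hj

lemma bdd (G : Finset (Ed n)) : BddAbove {l | ∃ v : ℕ → Fin n, ∀ i < l, ∃ e ∈ G, e.1 = (v i, v (i + 1))} := by
  refine ⟨n, fun l ⟨v, hv⟩ => ?_⟩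
  obtain ⟨T, h, -⟩ := path_CC G l v hv
  rw [← h]
  exact (card_le_univ T).trans (by simp)

lemma up (hn : 0 < n) (G : Finset (Ed n)) (z : ℝ) (hz : 0 ≤ z) :
    z ^ len G ≤ ∑ u : Fin n, ∑ T : Finset (Fin n) with (∀ x ∈ T, u < x) ∧ CC u T ⊆ G, z ^ #T := by
  obtain ⟨v, hv⟩ := Nat.sSup_mem (s := {l | ∃ v : ℕ → Fin n, ∀ i < l, ∃ e ∈ G, e.1 = (v i, v (i + 1))})
    ⟨0, fun _ => ⟨0, hn⟩, fun i hi => absurd hi (Nat.not_lt_zero i)⟩ (bdd G)
  obtain ⟨T, h1, h2, -⟩ := path_CC G _ v hv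
  refine le_trans ?_ (single_le_sum (f := fun u => ∑ T : Finset (Fin n) with (∀ x ∈ T, u < x) ∧ CC u T ⊆ G, z ^ #T)
    (fun u _ => sum_nonneg fun _ _ => by positivity) (mem_univ (v 0)))
  refine le_trans ?_ (single_le_sum (f := fun T : Finset (Fin n) => z ^ #T) (fun _ _ => by positivity)
    (mem_filter.2 ⟨mem_univ T, h2⟩))
  rw [h1]
  rfl

lemma reach (hn : 0 < n) (G : Finset (Ed n)) (hG : ini G ≤ 1) (b : Fin n) :
    ∃ l, ∃ v : ℕ → Fin n, (∀ i < l, ∃ e ∈ G, e.1 = (v i, v (i + 1))) ∧ v 0 = ⟨0, hn⟩ ∧ v l = b := by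
  induction b using WellFoundedLT.induction with
  | ind b ih =>
    by_cases hb : b = ⟨0, hn⟩
    · exact ⟨0, fun _ => ⟨0, hn⟩, fun i hi => absurd hi (Nat.not_lt_zero i), rfl, hb.symm⟩
    have h1 : ∃ e ∈ G, e.1.2 = b := by
      by_contra hc
      push Not at hc
      refine hb (card_le_one.1 hG b (mem_filter.2 ⟨mem_univ _, hc⟩) _ (mem_filter.2 ⟨mem_univ _, fun e _ h => ?_⟩))
      have := e.2
      rw [h, Fin.lt_def] at this
      exact Nat.not_lt_zero _ this
    obtain ⟨e, he, h2⟩ := h1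
    obtain ⟨l, v, h3, h4, h5⟩ := ih e.1.1 (h2 ▸ e.2)
    refine ⟨l + 1, fun i => if i ≤ l then v i else b, fun i hi => ?_, by simp [h4], by simp⟩
    by_cases h6 : i < l
    · simp only [h6.le, Nat.succ_le_of_lt h6, if_true]
      exact h3 i h6
    · obtain rfl : i = l := by omega
      refine ⟨e, he, ?_⟩
      simp [h5, ← h2]

lemma low (hn : 0 < n) (G : Finset (Ed n)) (hG : ini G ≤ 1) (z : ℝ) (hz : 0 ≤ z) (hz1 : z ≤ 1) :
    n * z ^ len G ≤ ∑ T : Finset (Fin n) with (∀ x ∈ T, ⟨0, hn⟩ < x) ∧ CC ⟨0, hn⟩ T ⊆ G, z ^ #T := by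
  have h : ∀ b : Fin n, ∃ T : Finset (Fin n), #T ≤ len G ∧ ((∀ x ∈ T, ⟨0, hn⟩ < x) ∧ CC ⟨0, hn⟩ T ⊆ G) ∧
      b ∈ insert ⟨0, hn⟩ T ∧ ∀ x ∈ insert ⟨0, hn⟩ T, x ≤ b := by
    intro b
    obtain ⟨l, v, h1, h2, h3⟩ := reach hn G hG b
    obtain ⟨T, h4, h5⟩ := path_CC G l v h1
    rw [h2, h3] at h5
    exact ⟨T, h4 ▸ le_csSup (bdd G) ⟨v, h4 ▸ h1⟩, h5⟩
  choose T h1 h2 h3 h4 using h
  have hinj : Function.Injective T := fun a b hab => le_antisymm (h4 b a (hab ▸ h3 a)) (h4 a b (hab ▸ h3 b))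
  refine le_trans ?_ (sum_le_sum_of_subset_of_nonneg (s := univ.image T) (fun S hS => ?_) fun _ _ _ => by positivity)
  · rw [sum_image fun a _ b _ h => hinj h]
    have := card_nsmul_le_sum univ (fun b => z ^ #(T b)) (z ^ len G) fun b _ => pow_le_pow_of_le_one hz hz1 (h1 b)
    simpa using this
  · obtain ⟨b, -, rfl⟩ := mem_image.1 hS
    exact mem_filter.2 ⟨mem_univ _, h2 b⟩

lemma jensen {A : Type} [Fintype A] [Nonempty A] (f : A → ℝ) :
    Fintype.card A * Real.exp ((∑ a, f a) / Fintype.card A) ≤ ∑ a, Real.exp (f a) := by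
  have hc : (0 : ℝ) < Fintype.card A := by exact_mod_cast Fintype.card_pos
  set m := (∑ a, f a) / Fintype.card A with hm
  have h : ∀ a ∈ (univ : Finset A), Real.exp m * (f a - m + 1) ≤ Real.exp (f a) := fun a _ => by
    rw [show f a = m + (f a - m) by ring, Real.exp_add, add_sub_cancel_left]
    exact mul_le_mul_of_nonneg_left (Real.add_one_le_exp _) (Real.exp_pos _).le
  refine le_trans (le_of_eq ?_) (sum_le_sum h)
  rw [← mul_sum, sum_add_distrib, sum_sub_distrib, sum_const, sum_const, card_univ, nsmul_eq_mul, nsmul_eq_mul, hm]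
  field_simp
  ring

theorem main : ∃ c C : ℝ, 0 < c ∧ c ≤ C ∧ ∀ᶠ n : ℕ in atTop, c * Real.log n ≤ EL n ∧ EL n ≤ C * Real.log n := by
  refine ⟨1 / 6, 31, by norm_num, by norm_num, ?_⟩
  filter_upwards [eventually_ge_atTop 3] with n hn
  have hn0 : 0 < n := by omega
  have hn1 : (0 : ℝ) < n := by exact_mod_cast hn0
  have he := Real.exp_one_lt_d9
  have he' := Real.exp_one_gt_d9
  have hl : 1 ≤ Real.log n := by
    rw [Real.le_log_iff_exp_le hn1]
    have : (3 : ℝ) ≤ n := by exact_mod_cast hn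
    linarith
  have : Nonempty (Fin (Fintype.card (Ed n)) ≃ Ed n) := ⟨(Fintype.equivFin _).symm⟩
  have hc : (0 : ℝ) < Fintype.card (Fin (Fintype.card (Ed n)) ≃ Ed n) := by exact_mod_cast Fintype.card_pos
  constructor
  · have h1 := jensen fun σ : Fin (Fintype.card (Ed n)) ≃ Ed n => -3 * (len ((List.ofFn σ).foldl step univ) : ℝ)
    have h2 := gf (N := Fintype.card (Ed n)) ⟨0, hn0⟩ (Real.exp (-3)) (Real.exp_pos _).le
    have h3 := sum_le_sum fun (σ : Fin (Fintype.card (Ed n)) ≃ Ed n) (_ : σ ∈ univ) =>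
      low hn0 ((List.ofFn σ).foldl step univ) (inv_fold _ _ inv_univ).1 (Real.exp (-3)) (Real.exp_pos _).le
        (Real.exp_le_one_iff.2 (by norm_num))
    rw [← mul_sum, mul_div_assoc] at h1
    simp only [← Real.exp_nat_mul, mul_comm _ (-3 : ℝ)] at h2 h3
    rw [← mul_sum] at h3
    have h4 := ((mul_le_mul_of_nonneg_left h1 hn1.le).trans h3).trans h2
    rw [mul_left_comm, mul_le_mul_iff_right₀ hc, ← Real.exp_log hn1, ← Real.exp_add, Real.exp_le_exp,
      Real.exp_log hn1] at h4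
    have h5 : Real.exp (-3) ≤ 1 / 20 := by
      rw [Real.exp_neg, one_div]
      refine inv_anti₀ (by norm_num) ?_
      rw [show (3 : ℝ) = (3 : ℕ) * 1 by norm_num, Real.exp_nat_mul]
      exact le_trans (by norm_num) (pow_le_pow_left₀ (by norm_num) he'.le 3)
    have h6 := mul_le_mul_of_nonneg_right h5 (show 0 ≤ 1 + Real.log n by linarith)
    unfold EL
    linarith
  · have h1 := jensen fun σ : Fin (Fintype.card (Ed n)) ≃ Ed n => (len ((List.ofFn σ).foldl step univ) : ℝ)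
    have h2 := sum_le_sum fun (u : Fin n) (_ : u ∈ univ) =>
      gf (N := Fintype.card (Ed n)) u (Real.exp 1) (Real.exp_pos _).le
    have h3 := sum_le_sum fun (σ : Fin (Fintype.card (Ed n)) ≃ Ed n) (_ : σ ∈ univ) =>
      up hn0 ((List.ofFn σ).foldl step univ) (Real.exp 1) (Real.exp_pos _).le
    simp only [← Real.exp_nat_mul, mul_one] at h2 h3
    rw [sum_comm, sum_const, card_univ, Fintype.card_fin, nsmul_eq_mul] at h2
    have h4 := (h1.trans h3).trans h2
    rw [mul_left_comm, mul_le_mul_iff_right₀ hc, ← Real.exp_log hn1, ← Real.exp_add, Real.exp_le_exp,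
      Real.exp_log hn1] at h4
    have h6 := mul_le_mul_of_nonneg_right he.le (show 0 ≤ 1 + Real.log n by linarith)
    unfold EL
    linarith

end Pool.Agent.H.MP_25bd62_pr
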